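import Pool.Agent.Y549.Om.Final

set_option autoImplicit false

/-!
# Halting probabilities restricted to co-c.e. sets of outputs are random

The definitions (`PFMachine`, `UniversalByAdjunction`, `Omega`, `IsMLTest`, `MLRandomReal`) are in
`Pool/Agent/H561R3/Om/Defs.lean`.

Idea of the proof. Suppose that a Martin-Löf test captures `α = Ω_U[X]`. The opponent, a machine
simulated by `U`, adds mass to an element `x₀` of `X`. A phase of level `0` adds some mass at once. A
phase of level `h + 1` chooses a component of the test of very small measure (compared with the
number of the programs which have halted so far) and runs phases of level `h`, each of them so small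
that it starts and ends in an interval of that component. By looking at the measure of the part of
this component below the current value of `Ω_U[X]`, one sees that a phase of level `h` which adds
mass `s` forces that mass at least `h s / 2` is put on strings which leave `X` later within this
phase. For large `h` this is more than one.
-/

namespace Pool.Agent.Results.MP_f476d2_lc.CoCeRandom

open Pool.Agent.H561R3.Om

/-- If `U` is universal by adjunction and `X` is a co-c.e. set of strings with `Ω_U[X] > 0`, then
`Ω_U[X]` is Martin-Löf random. -/
theorem result (U : List Bool →. List Bool) (hU : UniversalByAdjunction U)
    (X : Set (List Bool)) (hX : REPred fun x : List Bool => x ∉ X) (hpos : 0 < Omega U X) :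
    MLRandomReal (Omega U X) :=
  Pool.Agent.Y549.Om.main U hU X hX hpos

end Pool.Agent.Results.MP_f476d2_lc.CoCeRandom
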